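import Pool.Agent.Helper73.OB.GoalsB

/-!
Project OB, packet LOC: locality of the exchange.
-/

open MeasureTheory

namespace Pool.Agent.Helper89.OB

open Pool.Agent.Helper73.OB

section General

variable {S X : Type}

theorem sig_meas {L : Type} [MeasurableSpace L] (f : S → X → X) (s : X → L) {Q : Set (List S)}
    {w : List S} (hw : w ∈ Q) : @Measurable X L (sig f s Q) _ (fun x => s (run f w x)) := by
  rw [measurable_iff_comap_le]
  exact le_iSup₂_of_le (f := fun w (_ : w ∈ Q) =>
    MeasurableSpace.comap (fun x => s (run f w x)) inferInstance) w hw le_rfl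

theorem sig_mono {L : Type} [MeasurableSpace L] (f : S → X → X) (s : X → L)
    {Q Q' : Set (List S)} (h : Q ⊆ Q') : sig f s Q ≤ sig f s Q' :=
  iSup₂_le fun w hw => by
    have := sig_meas f s (h hw)
    rwa [measurable_iff_comap_le] at this

theorem sig_pull {L : Type} [MeasurableSpace L] (f : S → X → X) (s : X → L)
    {Q Q' : Set (List S)} (a : List S)
    (h : ∀ w ∈ Q, ∃ w' ∈ Q', ∀ x, s (run f w (run f a x)) = s (run f w' x)) :
    @Measurable X X (sig f s Q') (sig f s Q) (run f a) := by
  rw [measurable_iff_comap_le]
  unfold sig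
  rw [MeasurableSpace.comap_iSup]
  refine iSup_le fun w => ?_
  rw [MeasurableSpace.comap_iSup]
  refine iSup_le fun hw => ?_
  rw [MeasurableSpace.comap_comp]
  obtain ⟨w', hw', he⟩ := h w hw
  have h1 : (fun x => s (run f w x)) ∘ run f a = fun x => s (run f w' x) := funext he
  rw [h1]
  have := sig_meas f s hw'
  rwa [measurable_iff_comap_le] at this

/-- Countable piecewise definition. -/
theorem piece {ι Y : Type} [Countable ι] (m : MeasurableSpace X) (mY : MeasurableSpace Y)
    (φ : X → ι) (hφ : ∀ i, MeasurableSet[m] (φ ⁻¹' {i})) (F : ι → X → Y)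
    (hF : ∀ i, i ∈ Set.range φ → @Measurable X Y m mY (F i)) :
    @Measurable X Y m mY (fun x => F (φ x) x) := by
  intro B hB
  have h1 : (fun x => F (φ x) x) ⁻¹' B = ⋃ i : Set.range φ, φ ⁻¹' {i.1} ∩ (F i.1) ⁻¹' B := by
    ext x
    simp only [Set.mem_preimage, Set.mem_iUnion, Set.mem_inter_iff, Set.mem_singleton_iff,
      Subtype.exists, exists_prop]
    constructor
    · intro h
      exact ⟨φ x, ⟨x, rfl⟩, rfl, h⟩
    · rintro ⟨i, _, h2, h3⟩
      rw [h2]
      exact h3
  rw [h1]
  exact MeasurableSet.iUnion fun i => (hφ i.1).inter (hF i.1 i.2 hB)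

theorem top_pre {Y : Type} {m : MeasurableSpace X} {φ : X → Y}
    (h : @Measurable X Y m ⊤ φ) (i : Y) : MeasurableSet[m] (φ ⁻¹' {i}) :=
  h MeasurableSpace.measurableSet_top

theorem comp_top {Y Z : Type} {m : MeasurableSpace X} {φ : X → Y}
    (h : @Measurable X Y m ⊤ φ) (F : Y → Z) : @Measurable X Z m ⊤ (fun x => F (φ x)) :=
  fun B _ => h (t := F ⁻¹' B) MeasurableSpace.measurableSet_top

theorem top_of_pre {Y : Type} [Countable Y] {m : MeasurableSpace X} {φ : X → Y}
    (h : ∀ i, MeasurableSet[m] (φ ⁻¹' {i})) : @Measurable X Y m ⊤ φ :=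
  piece m ⊤ φ h (fun i _ => i) fun _ _ => measurable_const

end General

section Wd

variable {S : Type} {β βZ βD : S → S} {p : Bit → S}

theorem isH_append {u v : List S} (hu : IsH p u) (hv : IsH p v) : IsH p (u ++ v) := by
  intro a ha
  rcases List.mem_append.1 ha with h | h
  · exact hu a h
  · exact hv a h

theorem isH_ls {s : S} (hs : s ∉ Set.range p) {w : List S} (hw : IsH p w) :
    IsH p (ls β s w) := by
  unfold ls
  split_ifs
  · exact fun a ha => hw a (List.mem_of_mem_tail ha)
  · intro a ha
    rcases List.mem_cons.1 ha with h | h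
    · rw [h]
      exact hs
    · exact hw a h

theorem isH_red {w : List S} (hw : IsH p w) : IsH p (red β w) := by
  induction w with
  | nil => exact hw
  | cons a w ih =>
    rw [red_cons]
    exact isH_ls (hw a List.mem_cons_self) (ih fun b hb => hw b (List.mem_cons_of_mem _ hb))

theorem isH_head {w : List S} (hw : IsH p w) (z : Bit) : w.head? ≠ some (p z) := by
  intro h
  exact hw (p z) (List.mem_of_mem_head? h) ⟨z, rfl⟩

theorem split (w : List S) : IsH p w ∨ ∃ w' c w'', w = w' ++ p c :: w'' ∧ IsH p w' := by
  classical
  induction w with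
  | nil => exact Or.inl fun a ha => absurd ha List.not_mem_nil
  | cons a w ih =>
    by_cases ha : a ∈ Set.range p
    · obtain ⟨c, rfl⟩ := ha
      exact Or.inr ⟨[], c, w, rfl, fun a ha => absurd ha List.not_mem_nil⟩
    · rcases ih with h | ⟨w', c, w'', rfl, h⟩
      · left
        intro b hb
        rcases List.mem_cons.1 hb with h1 | h1
        · rw [h1]
          exact ha
        · exact h b h1
      · right
        refine ⟨a :: w', c, w'', rfl, ?_⟩
        intro b hb
        rcases List.mem_cons.1 hb with h1 | h1
        · rw [h1]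
          exact ha
        · exact h b h1

theorem red_change (h : ∀ a, a ∉ Set.range p → βZ a = βD a) {w : List S} (hw : IsH p w)
    (hr : Red βD w) : Red βZ w := by
  induction w with
  | nil => exact List.isChain_nil
  | cons a w ih =>
    cases w with
    | nil => exact List.isChain_singleton _
    | cons b w =>
      have h1 := List.isChain_cons_cons.1 hr
      refine List.isChain_cons_cons.2 ⟨?_, ih (fun c hc => hw c (List.mem_cons_of_mem _ hc)) h1.2⟩
      rw [h a (hw a List.mem_cons_self)]
      exact h1.1

theorem run_H {X : Type} {f g : S → X → X} (hg : ∀ a, a ∉ Set.range p → g a = f a)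
    {w : List S} (hw : IsH p w) (x : X) : run g w x = run f w x := by
  induction w generalizing x with
  | nil => rfl
  | cons a w ih =>
    rw [run_cons, run_cons, hg a (hw a List.mem_cons_self)]
    exact ih (fun b hb => hw b (List.mem_cons_of_mem _ hb)) _

/-- Reducedness of `u ++ p z :: v`. -/
theorem red_join (hF : Fr β p 0) {u v : List S} (hu : Red β u) (hH : IsH p u) (z : Bit)
    (hv : Red β v) (hz : v.head? ≠ some (p (z + 1))) : Red β (u ++ p z :: v) := by
  have hb : β (p z) = p (z + 1) := by
    have := hF.bp z
    rwa [add_zero] at this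
  refine Red.append hu ?_ ?_
  · cases v with
    | nil => exact List.isChain_singleton _
    | cons b v =>
      refine List.isChain_cons_cons.2 ⟨?_, hv⟩
      intro h
      apply hz
      rw [h, hb]
      rfl
  · intro a ha b hb' h
    have h1 : b = p z := by simpa using hb'.symm
    have ha' : a ∈ u := List.mem_of_mem_getLast? ha
    apply hH a ha'
    refine ⟨z + 1, ?_⟩
    rw [← hb, ← h1, h, hF.inv]

end Wd

section Main

variable {S X : Type} [MeasurableSpace X] {μ : Measure X} {βZ βD : S → S} {p : Bit → S}
  {f g : S → X → X} {s : X → Sk} {K K' : Bit → Bit → X → List S} {G : Set X}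

/-- The H-field of `x` and the H-field of `run f h x`. -/
theorem pullH (hX : Exch βZ βD p μ f g s K K' G) {h : List S} (hh : IsH p h) :
    @Measurable X X (sig f s {w | Red βZ w ∧ IsH p w}) (sig f s {w | Red βZ w ∧ IsH p w})
      (run f h) := by
  refine sig_pull f s h ?_
  rintro w ⟨_, hwH⟩
  refine ⟨red βZ (h ++ w), ⟨red_Red βZ _, isH_red (isH_append hh hwH)⟩, fun x => ?_⟩
  rw [run_red hX.sysZ.inv, run_append]

theorem s_meas (hX : Exch βZ βD p μ f g s K K' G) :
    @Measurable X Sk (sig f s {w | Red βZ w ∧ IsH p w}) _ s := by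
  have := sig_meas f s (Q := {w | Red βZ w ∧ IsH p w}) (w := [])
    ⟨List.isChain_nil, fun a ha => absurd ha List.not_mem_nil⟩
  exact this

theorem run_G (hX : Exch βZ βD p μ f g s K K' G) {x : X} (hx : x ∈ G) (w : List S) :
    run f w x ∈ G := by
  induction w generalizing x with
  | nil => exact hx
  | cons a w ih =>
    rw [run_cons]
    exact ih (hX.G_f a x hx)

omit [MeasurableSpace X] in
theorem H_le_side (z : Bit) : sig f s {w | Red βZ w ∧ IsH p w} ≤ sig f s (Side βZ (p z)) :=
  sig_mono f s fun _ hw => ⟨hw.1, isH_head hw.2 z⟩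

theorem loc_aux [Finite S] (hX : Exch βZ βD p μ f g s K K' G) (N : ℕ) :
    ∀ (w : List S), w.length ≤ N → ∀ (z c : Bit), Red βD w → w.head? ≠ some (p c) →
    ∃ U : X → List S, @Measurable X (List S) (sig f s (Side βZ (p z))) ⊤ U ∧
      (∀ x, Red βZ (U x)) ∧ (∀ x, (U x).head? ≠ some (p z)) ∧
      ∀ x ∈ G, (s x).2.1 0 z = c → run g w (run f (K z c x) x) = run f (U x) x := by
  classical
  have hinv := hX.sysZ.inv
  induction N with
  | zero =>
    intro w hw z c _ _
    have hw0 : w = [] := List.length_eq_zero_iff.1 (Nat.le_zero.1 hw)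
    subst hw0
    refine ⟨K z c, ?_, fun x => (hX.K_H z c x).1, fun x => isH_head (hX.K_H z c x).2 z,
      fun x _ _ => rfl⟩
    exact (hX.K_meas z c).mono (H_le_side z) le_rfl
  | succ N ih =>
    intro w hw z c hr hc
    rcases split (p := p) w with hH | ⟨w', c', w'', rfl, hH⟩
    · refine ⟨fun x => red βZ (K z c x ++ w), ?_, fun x => red_Red βZ _,
        fun x => isH_head (isH_red (isH_append (hX.K_H z c x).2 hH)) z, ?_⟩
      · have h1 : @Measurable X (List S) (sig f s (Side βZ (p z))) ⊤ (K z c) :=
          (hX.K_meas z c).mono (H_le_side z) le_rfl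
        exact comp_top h1 fun k => red βZ (k ++ w)
      · intro x _ _
        show run g w (run f (K z c x) x) = run f (red βZ (K z c x ++ w)) x
        rw [run_red hinv, run_append, run_H hX.g_H hH]
    · have hw1 : w''.length ≤ N := by
        simp only [List.length_append, List.length_cons] at hw
        omega
      have hr2 : Red βD (p c' :: w'') := hr.right
      have hr' : Red βD w'' := List.IsChain.tail hr2
      have hbD : βD (p c') = p c' := by
        have := hX.frD.bp c'
        have h2 : c' + 1 + 1 = c' := by
          rw [add_assoc]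
          have : (1 : Bit) + 1 = 0 := rfl
          rw [this, add_zero]
        rwa [h2] at this
      have hbZ : ∀ j, βZ (p j) = p (j + 1) := by
        intro j
        have := hX.frZ.bp j
        rwa [add_zero] at this
      have hc' : w''.head? ≠ some (p c') := by
        intro h
        cases w'' with
        | nil => simp at h
        | cons b w'' =>
          have hb : b = p c' := by simpa using h
          apply (List.isChain_cons_cons.1 hr2).1
          rw [hbD, hb]
      have hrw : Red βZ w' := red_change hX.βeq hH hr.left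
      choose U2 hU2m hU2r hU2h hU2e using fun j : Bit => ih w'' hw1 j c' hr' hc'
      let v : X → X := fun x => run f (K z c x ++ w') x
      let ζ : X → Bit := fun x => (s (v x)).2.1 1 c'
      let κ : X → List S := fun x => K' (ζ x) c' (v x)
      let u : X → List S := fun x => red βZ ((K z c x ++ w') ++ κ x)
      have huH : ∀ x, IsH p (u x) := fun x =>
        isH_red (isH_append (isH_append (hX.K_H z c x).2 hH) (hX.K'_H (ζ x) c' (v x)).2)
      have huR : ∀ x, Red βZ (u x) := fun x => red_Red βZ _
      let φ : X → List S × Bit := fun x => (u x, ζ x)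
      let F : List S × Bit → X → List S := fun i x =>
        if i.1 = [] ∧ i.2 = z then [] else i.1 ++ p i.2 :: U2 (i.2 + 1) (run f (i.1 ++ [p i.2]) x)
      have hKm := hX.K_meas z c
      have hv : @Measurable X X (sig f s {w | Red βZ w ∧ IsH p w})
          (sig f s {w | Red βZ w ∧ IsH p w}) v := by
        refine piece _ _ (K z c) (top_pre hKm) (fun k => run f (k ++ w')) ?_
        rintro k ⟨x, rfl⟩
        exact pullH hX (isH_append (hX.K_H z c x).2 hH)
      have hζ : ∀ i, MeasurableSet[sig f s {w | Red βZ w ∧ IsH p w}] (ζ ⁻¹' {i}) := by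
        intro i
        have h1 : Measurable fun t : Sk => t.2.1 1 c' := by fun_prop
        have h2 : @Measurable X Sk (sig f s {w | Red βZ w ∧ IsH p w}) _ (fun x => s (v x)) :=
          @Measurable.comp X X Sk _ _ _ _ _ (s_meas hX) hv
        have h3 := @Measurable.comp X Sk Bit _ _ _ _ _ h1 h2
        exact h3 (measurableSet_singleton i)
      have hκ : @Measurable X (List S) (sig f s {w | Red βZ w ∧ IsH p w}) ⊤ κ := by
        refine piece _ _ ζ hζ (fun j x => K' j c' (v x)) ?_
        rintro j -
        exact @Measurable.comp X X (List S) _ _ _ _ _ (hX.K'_meas j c') hv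
      have hφ : ∀ i, MeasurableSet[sig f s {w | Red βZ w ∧ IsH p w}] (φ ⁻¹' {i}) := by
        have h1 : @Measurable X (List S × List S × Bit) (sig f s {w | Red βZ w ∧ IsH p w}) ⊤
            (fun x => (K z c x, κ x, ζ x)) := by
          refine top_of_pre ?_
          rintro ⟨a, b, j⟩
          have h2 : (fun x => (K z c x, κ x, ζ x)) ⁻¹' {(a, b, j)} =
              (K z c) ⁻¹' {a} ∩ (κ ⁻¹' {b} ∩ ζ ⁻¹' {j}) := by
            ext x
            simp [Prod.ext_iff]
          rw [h2]
          exact (top_pre hKm a).inter ((top_pre hκ b).inter (hζ j))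
        exact top_pre (comp_top h1 fun t => (red βZ ((t.1 ++ w') ++ t.2.1), t.2.2))
      have hhead : ∀ (l : List S) (j : Bit) (r : List S), IsH p l → ¬(l = [] ∧ j = z) →
          (l ++ p j :: r).head? ≠ some (p z) := by
        intro l j r hl hne h
        cases l with
        | nil =>
          apply hne
          refine ⟨rfl, ?_⟩
          have : p j = p z := by simpa using h
          exact hX.frZ.inj this
        | cons a l =>
          have h1 : a = p z := by simpa using h
          exact hl a List.mem_cons_self ⟨z, h1.symm⟩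
      refine ⟨fun x => F (φ x) x, ?_, ?_, ?_, ?_⟩
      · refine piece _ _ φ (fun i => H_le_side z _ (hφ i)) F ?_
        rintro _ ⟨x0, rfl⟩
        by_cases hne : (φ x0).1 = [] ∧ (φ x0).2 = z
        · have h1 : F (φ x0) = fun _ => [] := funext fun x => if_pos hne
          rw [h1]
          exact measurable_const
        · have h1 : F (φ x0) = fun x => (φ x0).1 ++ p (φ x0).2 ::
              U2 ((φ x0).2 + 1) (run f ((φ x0).1 ++ [p (φ x0).2]) x) :=
            funext fun x => if_neg hne
          rw [h1]
          have h2 : @Measurable X X (sig f s (Side βZ (p z)))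
              (sig f s (Side βZ (p ((φ x0).2 + 1)))) (run f ((φ x0).1 ++ [p (φ x0).2])) := by
            refine sig_pull f s _ ?_
            rintro r ⟨hr1, hr2⟩
            refine ⟨(φ x0).1 ++ p (φ x0).2 :: r, ⟨?_, ?_⟩, fun x => ?_⟩
            · exact red_join hX.frZ (huR x0) (huH x0) _ hr1 hr2
            · exact hhead _ _ _ (huH x0) hne
            · rw [← run_append, List.append_assoc]
              rfl
          have h3 := @Measurable.comp X X (List S) _ _ _ _ _ (hU2m ((φ x0).2 + 1)) h2
          exact comp_top h3 fun r => (φ x0).1 ++ p (φ x0).2 :: r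
      · intro x
        show Red βZ (if u x = [] ∧ ζ x = z then [] else u x ++ p (ζ x) ::
          U2 (ζ x + 1) (run f (u x ++ [p (ζ x)]) x))
        split_ifs with hne
        · exact List.isChain_nil
        · exact red_join hX.frZ (huR x) (huH x) _ (hU2r _ _) (hU2h _ _)
      · intro x
        show (if u x = [] ∧ ζ x = z then [] else u x ++ p (ζ x) ::
          U2 (ζ x + 1) (run f (u x ++ [p (ζ x)]) x)).head? ≠ some (p z)
        split_ifs with hne
        · simp
        · exact hhead _ _ _ (huH x) hne
      · intro x hx hzc
        have hvG : v x ∈ G := run_G hX hx _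
        have hx1 : run f (u x) x = run f (κ x) (v x) := by
          show run f (red βZ ((K z c x ++ w') ++ κ x)) x = _
          rw [run_red hinv, run_append]
        obtain ⟨ht1, ht2⟩ := hX.th' (ζ x) c' (v x) hvG rfl
        have hne : ¬(u x = [] ∧ ζ x = z) := by
          rintro ⟨h1, h2⟩
          rw [h1, run_nil] at hx1
          have h3 : run f (K' (ζ x) c' (v x)) (v x) = x := hx1.symm
          rw [h3] at ht1 ht2
          have hcc : c' = c := by
            rw [h2] at ht1
            exact ht1.symm.trans hzc
          have h4 : run f (K z c x) x = v x := by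
            have h5 := run_invw hinv (K' (ζ x) c' (v x)) (v x)
            rw [h3, ← ht2, h2, hcc] at h5
            exact h5
          have h6 : run f w' (v x) = v x := by
            have h7 : v x = run f w' (run f (K z c x) x) := run_append _ _ _
            rw [h4] at h7
            exact h7.symm
          have h8 := hX.free (v x) hvG w' hrw hH h6
          apply hc
          rw [h8, hcc]
          rfl
        show run g (w' ++ p c' :: w'') (run f (K z c x) x) =
          run f (if u x = [] ∧ ζ x = z then [] else u x ++ p (ζ x) ::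
            U2 (ζ x + 1) (run f (u x ++ [p (ζ x)]) x)) x
        rw [if_neg hne, run_append, run_H hX.g_H hH]
        have h9 : run f w' (run f (K z c x) x) = v x := (run_append _ _ _).symm
        rw [h9, run_cons]
        set y : X := f (p (ζ x)) (run f (K' (ζ x) c' (v x)) (v x)) with hy
        have hg := hX.g_P c' (v x) hvG (ζ x) rfl y hy
        rw [hg]
        have hyG : y ∈ G := hX.G_f _ _ (run_G hX hvG _)
        have hya : (s y).2.1 0 (ζ x + 1) = c' := by
          rw [hy, hX.edge _ (run_G hX hvG _) (ζ x)]
          exact ht1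
        rw [hU2e (ζ x + 1) y hyG hya, run_append, hx1, run_append, hx1]
        rfl

/-- LOC. -/
theorem loc : S_LOC := by
  intro S _ βZ βD p X _ μ _ f g s K K' G hX w z c hr hc
  exact loc_aux hX w.length w le_rfl z c hr hc

end Main

end Pool.Agent.Helper89.OB
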